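import Mathlib
import Pool.Agent.Q64.L.Thms
import Pool.Agent.Q64.L.InstA

/-!
# Cycle maps of the products of arbitrary varieties with almost all abelian varieties

Let `g i` (`i` in a finite set `I`) be positive integers, `r` an integer smaller than all the `g i`
and `E` a number field.  For a prime power `q` let `S i` be the set of the characteristic
polynomials of Frobenius of the ordinary abelian varieties of dimension `g i` over the field with
`q` elements, or of all abelian varieties of dimension `g i`, or any set in between.  By Weil,
Honda and Tate its elements correspond to the isogeny classes, the first set contains
`ordinaryWeilPolys q (g i)`, and the second one is contained in `weilPolys q (g i)`.

For almost all families `f i` in `S i` (`AlmostAll`: with the exception of a proportion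
`O (q ^ (-1 / 6) log q)`, the constant depending only on `g`, `r` and `E`) the following holds for
all `s > 0`, `Q = q ^ s`, all abelian varieties `A` over the field with `Q` elements which are
isogenous to products of powers of abelian varieties coming from the field with `q` elements, with
characteristic polynomials `f i`, and **any** variety (separated scheme of finite type) `X` over
the field with `Q` elements such that

* the eigenvalues of Frobenius on the `ℓ`-adic homology of `X` and their conjugates generate a
  group of rank at most `r` modulo the group of the numbers with a power in `E` (for `r = 0`: they
  have powers in `E`; for any given `X` over the field with `q'` elements one can take for `E` the
  field generated by the eigenvalues and their conjugates, and apply the theorem to the powers `q`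
  of `q'`);
* the Frobenius endomorphism of `X` satisfies on each group of the Chow groups of `A × X` a nonzero
  polynomial with rational coefficients whose complex roots have the same property. For instance
  this is so if the motive of `X` is built from finite-dimensional motives (Kimura) of smooth
  projective varieties which satisfy the first condition.

**For every `b` the cycle map `cl_b` of `A × X` is an isomorphism if and only if the cycle maps
`cl_(b - l)` of `X`, `0 ≤ l ≤ dim A`, are isomorphisms.** The Chow groups of `A × X` and the Galois
invariants of the `ℓ`-adic homology satisfy a Kunneth formula, with finitely many products of
divisor classes on `A`. `X` may be singular, reducible and not proper; no resolution of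
singularities and no case of the conjectures is assumed.

What is used of `A` are known theorems (`IsAbelian`): `H(A)` is generated by `H^1`, Frobenius is
diagonalizable on `H^1` (Weil), the theorem of Tate on divisors, and the nilpotence of
homologically trivial correspondences (Kimura). The theories relative to `X` are modelled by
`RelData`, with the formal properties in `IsTheory`: degrees, products with classes on `A`,
push-forward to `X`, the projection formula, the operation of the correspondences of `A` and of the
Frobenius endomorphism of `X`. The groups of `X` are numbered as follows: the group of bidegree
`(i, j)` of `X` is `H_(-i)(X, -j)`, and the group of bidegree `(i, j)` of `A × X` is
`H_(2 d - i)(A × X, d - j)`, `d = dim A`; so the product with a class of codimension `c` on `A` has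
the bidegree `(2 c, c)`. The operator `frobN`, `frobM` is the inverse of the push-forward by the
Frobenius endomorphism of `X`; then the Frobenius endomorphism of `A × X` is the multiplication by
`Q ^ j` on the Chow groups (`IsPure`), and also on the Galois invariants of the `ℓ`-adic homology
groups (`InvN`, `InvM`); the generalized eigenvectors are in `GenN`, `GenM`.

The proof: by a sieve (helper521), which only uses the primes that split completely in the Galois
closure of `E` - these have positive density by the theorem of Chebotarev, formalized by helper401
- almost all families are such that each pair `α`, `q / α` of roots can be exchanged by a Galois
automorphism which fixes all the other roots of all the `f i` and also all elements of `E`. It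
follows that the correspondence on `A` given by the sum of the products of dual classes of divisor
products acts as the identity on the part of the theory of `A × X` in question: on the generalized
eigenspace of the Frobenius endomorphism of `A × X` for `Q ^ j`, the Frobenius endomorphism of `A`
satisfies a power of the polynomial reciprocal to that of the Frobenius endomorphism of `X`; this
polynomial is prime to the one whose value on `H(A)` lies in the part generated by divisors, and
the difference of the two correspondences is nilpotent. So the theory of `A × X` is, on this part,
the direct sum of copies of the one of `X` (Kunneth formula), compatibly with the regulators.
-/

set_option autoImplicit false

namespace Pool.Agent.Results.MP_3af9db_ag.AlmostAllTimesAny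

open Pool.Agent.Y156.L Pool.Agent.Q64.L

/-- **The cycle map `cl_b` is bijective for `A × X` if and only if the `cl_(b - l)` are for `X`,
for almost all abelian varieties `A` and all varieties of small Frobenius rank.** -/
theorem result {I : Type} [Fintype I] (g : I → ℕ) (r : ℕ) (hr : ∀ i, r < g i)
    (E : IntermediateField ℚ ℂ) [FiniteDimensional ℚ E] :
    AlmostAll g fun q F => ClReduces (RootsRank E r) q F :=
  countA g r hr E (fun q F => ClReduces (RootsRank E r) q F) fun _ _ hq hG => clReduces hq hG

end Pool.Agent.Results.MP_3af9db_ag.AlmostAllTimesAny
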