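import Pool.Agent.Q68.GB.Main

/-!
# Cycle class maps for schemes over finite fields generated by abelian varieties with simple factors
of prime dimensions, or with irreducible odd functions, and for complements of closed subschemes

Over an algebraic closure of the field with `p` elements each abelian variety is isogenous to the
reduction of an abelian variety of CM type (Honda, Tate). So an abelian variety over the field with
`p ^ a` elements is modelled by `RedAV`: a finite product of CM types `(E i, Φ i)` with Weil numbers
`π i ∈ E i` that satisfy the formula of Shimura and Taniyama; its cohomology of degree `n`, with
coefficients in an algebraically closed field `Ω`, consists of the alternating `n`-forms on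
`Ω ⊗ H_1`, on which the Frobenius endomorphism acts by `π`. The dimension of the factor `i` is half of
the degree of the CM field `E i`.

We consider (`IsLargeAV`) the abelian varieties `Y`, of any Newton polygons, that have dimension at
most five, or that are isogenous, over an algebraic closure, to a product of a supersingular abelian
variety and of powers of the factors of an abelian variety `Z` with the following properties
(`HasLargeFactors`). There is no condition on the factors of dimension one and two. The factors of
dimension at least three are not supersingular, their CM fields have pairwise different Galois
closures, and for each of them

* the odd functions on the complex embeddings of the CM field (`f (conj φ) = - f φ`) are an irreducible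
  rational representation of the group of the automorphisms of `ℂ` (`OddIrreducible`); or
* the dimension is an odd prime number, the CM field has no imaginary quadratic subfield in common
  with the CM field of another factor of `Z` (`CommonImaginary`), and it contains no imaginary
  quadratic field at all if the dimension is at least seven.

So `Y` may be the product of arbitrary elliptic curves and abelian surfaces and of powers of one
simple abelian variety `A g` for each odd prime number `g` of a finite set, of dimension `g`, not
supersingular, whose CM field contains no imaginary quadratic field (CM fields of degrees `2 g` for
different odd prime numbers `g` have different Galois closures): the dimensions of the simple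
factors are not bounded. In the starting files on this conjecture the sum of the dimensions of the
factors of `Z` is at most five, or all of them are at most three.

`Homology Ω V` are data of motivic homology `M X i j = H_i^M(X, ℚ(j))` (higher Chow groups, with
`M X (2 i) i = CH_i(X)`) and of `ℓ`-adic homology `E X i j = H_i(X, ℚ_ℓ(j))` (coefficients extended to
`Ω`) of schemes `X` over a finite field, with the Frobenius and the regulator. The class `Generated`
contains the abelian varieties above, it contains the schemes whose motives are direct summands of
finite sums of twists of motives of members, and it contains all of `Z`, `X`, `U = X ∖ Z` if it
contains two of them.

The theorem, for all schemes `X` of this class - smooth or not, proper or not: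

* the cycle class maps of `X` are bijective (onto the invariants of Frobenius, after extension of
  scalars) for the cycles of all dimensions `i`, and the eigenvalue one of the Frobenius is
  semisimple;
* for an arbitrary closed subscheme `Z` of `X`, of dimension at most `d`, the same holds for the
  complement `U = X ∖ Z` and the cycles of dimension `i ≥ d`. Here `Z` has dimension at most `d` means
  that its homology vanishes in degrees above `2 d` and that the cycle class map is surjective in
  dimension `d`, with semisimple eigenvalue one (the homology of degree `2 d` is spanned by the
  classes of the irreducible components).

Properties of the theory of cycles that are used for the abelian varieties `Y` (`IsChowS`,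
`IsMotivic`): Poincaré duality, the formal properties of correspondences, the nilpotence of
homologically trivial correspondences (Kimura), the operation of the Frobenius endomorphism on higher
Chow groups, the vanishing of the higher rational `K`-groups of a finite field (Quillen), and the
algebraicity of the Tate classes in `AlgS` (theorems of Tate, Markman, and Ramón Marí). The passage
from the Tate conjecture to all degrees is due to Soulé, Geisser, Kahn and Jannsen. That all Tate
classes on `Y` are in the system `AlgS` is due to helper306 of this team for the large factors
(`PrimeDimensions`, MP_ee618e_ag), and to the starting files for the small ones.
-/

namespace Pool.Agent.Results.MP_3af9db_ag.FactorsOfPrimeDimension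

open Pool.Agent.W495.TA Pool.Agent.W495.FM Pool.Agent.Q68.GB

/-- Cycle class maps of the members of the class and of complements of closed subschemes. -/
theorem result (p : ℕ) [Fact p.Prime] (ν : PadicAlgCl p ≃+* ℂ) (Ω : Type) [Field Ω]
    [IsAlgClosed Ω] [CharZero Ω] (V : Type) (T : Homology Ω V) (hT : IsHomology T)
    (hW : HasWeights T) (X : V) (hX : Generated T (IsLargeAbelian p ν T) X) :
    (∀ i, IsIso T X i) ∧ ∀ Z U d, IsTriple T Z X U →
      ((∀ n j, 2 * d < n → ∀ e : T.E Z n j, e = 0) ∧ IsOnto T Z d) → ∀ i, d ≤ i → IsIso T U i :=
  ⟨fun i => (tb_large hT hX).iso hT i, fun Z U d h hZ i hi =>
    isoAbove_large hT hW Z X U d h hX hZ i hi⟩

end Pool.Agent.Results.MP_3af9db_ag.FactorsOfPrimeDimension
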